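import Mathlib
import Pool.Agent.V11310.CL.Open

set_option autoImplicit false

/-!
# General fat point schemes of the plane: the closure of the known classes under collisions

The case `r = 2` of the question, ARBITRARY multiplicities `m 1, …, m k`, `k ≥ 4`, every degree `d`.

`Reached N0 d w` (`Pool.Agent.V11310.CL.Reached`): the multiset of the multiplicities `w` belongs, in
degree `d`, to the smallest class of multisets of multiplicities with one of the two signs (no curves,
independent conditions) which contains the comparable, the large and the good classes (`Base`) and is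
closed under collisions (a point of multiplicity `μ` may be replaced by points `M'` if `M'` is in the
class in degree `μ - 1`), quadratic transformations, doubling (four points of multiplicity `m` for one
point of the multiplicities `2 m` and `2 m + 1`), adding or removing points and changing the degree.

1. If `(d; m)` is reached, or finitely many reflections in classes `H - E_i - E_j - E_l` carry it to a
   standard class which is reached, then the general fat point scheme imposes maximal conditions.
2. For every `(d; m)` and general points the fat point scheme fails to impose maximal conditions if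
   `(d; m)` is `(-1)`-special, and it fails ONLY if `(d; m)` is `(-1)`-special or, after the removal of
   disjoint `(-1)`-curves and finitely many quadratic transformations, it becomes a standard class
   which fails, too, and is not reached.
-/

namespace Pool.Agent.Results.MP_1dafdd_ag.PlaneCollisionClosure

open MvPolynomial Pool.Agent.TH167.SHDefs
open Pool.Agent.V11310.CL
open Pool.Agent.Y536.SH (Standard)

/-- The fat point scheme imposes maximal conditions on the forms of degree `d`
(`sys P d m`: the forms of degree `d` vanishing to order at least `m i` at `(P i 0 : P i 1 : 1)`). -/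
def MaxConditions {k : ℕ} (P : Fin k → Fin 2 → ℂ) (d : ℕ) (m : Fin k → ℕ) : Prop :=
  (Module.finrank ℂ ↥(sys P d m) : ℤ) =
    max 0 (((d + 2).choose 2 : ℤ) - ∑ i, ((m i + 1).choose 2 : ℤ))

/-- The property holds for all `k`-tuples of points outside some hypersurface. -/
def ForGeneral {k : ℕ} (p : (Fin k → Fin 2 → ℂ) → Prop) : Prop :=
  ∃ F : MvPolynomial (Fin k × Fin 2) ℂ, F ≠ 0 ∧ ∀ P : Fin k → Fin 2 → ℂ,
    eval (fun ij : Fin k × Fin 2 => P ij.1 ij.2) F ≠ 0 → p P

theorem max_of {k : ℕ} {P : Fin k → Fin 2 → ℂ} {d : ℕ} {m : Fin k → ℕ}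
    (h : Pool.Agent.H932R3.ExpDim ℂ m P d) : MaxConditions P d m := by
  have h1 : Module.finrank ℂ ↥(sys P d m) =
      Nat.choose (d + 2) 2 - ∑ i, Nat.choose (m i + 1) 2 := h
  have h2 : ∑ i, ((m i + 1).choose 2 : ℤ) = ((∑ i, Nat.choose (m i + 1) 2 : ℕ) : ℤ) := by
    push_cast
    rfl
  unfold MaxConditions
  rw [h1, h2]
  omega

theorem not_max_iff {k : ℕ} {P : Fin k → Fin 2 → ℂ} {d : ℕ} {m : Fin k → ℕ} :
    ¬ MaxConditions P d m ↔ Special P d m := by
  rw [Pool.Agent.TH167.SH.special_conv]
  unfold MaxConditions Pool.Agent.TH167.SH.Special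
  rw [Pool.Agent.TH167.SH.sys_eq]
  exact Iff.rfl

theorem result : ∃ N0 : ℕ, ∀ (k : ℕ) (_ : 4 ≤ k) (d : ℕ) (m : Fin k → ℕ),
    (Base N0 d m → Reached N0 d m) ∧
    (Covered N0 d m → ForGeneral fun P => MaxConditions P d m) ∧
    ForGeneral fun P =>
      (MinusOneSpecial P d m → ¬ MaxConditions P d m) ∧
      (¬ MaxConditions P d m → MinusOneSpecial P d m ∨
        ∃ (d'' : ℕ) (m'' : Fin k → ℕ) (l : ℕ) (G : Fin l → MvPolynomial (Fin 3) ℂ)
          (e : Fin l → ℕ) (u : Fin l → Fin k → ℕ) (N : Fin l → ℕ) (d' : ℕ) (m' : Fin k → ℕ),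
          Decomp P d m d'' m'' G e u N ∧
          Relation.ReflTransGen Quadratic (d'', m'') (d', m') ∧ Standard d' m' ∧
          ¬ MaxConditions P d' m' ∧ ¬ Reached N0 d' m') := by
  obtain ⟨N0, hN0⟩ := Pool.Agent.Y939.NC.reg_exp
  refine ⟨N0, fun n hn d w => ⟨reached_of_base, fun h => ?_, ?_⟩⟩
  · obtain ⟨F, hF, hF'⟩ := covered_open hN0 hn h
    exact ⟨F, hF, fun P hP => max_of (hF' P hP)⟩
  · obtain ⟨F, hF, hF'⟩ := Pool.Agent.TH442.NF.hh_open hn (Q := fun d' w' => Reached N0 d' w')
      (fun hP _ _ _ hG => reached_exp hN0 hG hP) d w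
    refine ⟨F, hF, fun P hP => ⟨fun h => not_max_iff.2 ((hF' P hP).1 h), fun h => ?_⟩⟩
    rcases (hF' P hP).2 (not_max_iff.1 h) with h | ⟨d'', w'', l, G, e, u, N, d', w', h1, h2, h3, h4, h5⟩
    · exact Or.inl h
    · exact Or.inr ⟨d'', w'', l, G, e, u, N, d', w', h1, h2, h3, not_max_iff.2 h4, h5⟩

end Pool.Agent.Results.MP_1dafdd_ag.PlaneCollisionClosure
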