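import Mathlib
import Pool.Agent.V11263.SH.Comp

set_option autoImplicit false

/-!
# Which general fat point schemes of the plane fail to impose maximal conditions

The case `r = 2` of the question, ARBITRARY multiplicities `m 1, …, m k`, `k ≥ 4`, every degree `d`.

A class `(d; m)` is covered if it is `Comparable` (`Pool.Agent.V11263.SH.Comparable`: for a vector `v`
regular in degree `d` on some of the points, either `m ≥ v` there and `χ (d; v) ≤ 0`, or `m ≤ v`
there, `m ≤ 1` at the other points, and `χ (d; v) ≥ 0` or `m = v` there), or if finitely many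
reflections in classes `H - E_i - E_j - E_l` carry it to a standard class which is comparable, large
(`Pool.Agent.Y205.AV.Large`) or good (`Pool.Agent.Y939.NC.Good`).

1. If `(d; m)` is covered, then the general fat point scheme imposes maximal conditions.
2. For every `(d; m)` and general points the fat point scheme fails to impose maximal conditions if
   `(d; m)` is `(-1)`-special, and it fails ONLY if `(d; m)` is `(-1)`-special or, after the removal of
   disjoint `(-1)`-curves and finitely many quadratic transformations, it becomes a standard class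
   which fails, too, and is neither comparable nor large nor good.
-/

namespace Pool.Agent.Results.MP_1dafdd_ag.PlaneStandardForms

open MvPolynomial Pool.Agent.TH167.SHDefs
open Pool.Agent.V11263.SH (Comparable Known comparable_exp known_exp)
open Pool.Agent.Y536.SH (Standard)

/-- The fat point scheme imposes maximal conditions on the forms of degree `d`
(`sys P d m`: the forms of degree `d` vanishing to order at least `m i` at `(P i 0 : P i 1 : 1)`). -/
def MaxConditions {k : ℕ} (P : Fin k → Fin 2 → ℂ) (d : ℕ) (m : Fin k → ℕ) : Prop :=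
  (Module.finrank ℂ ↥(sys P d m) : ℤ) =
    max 0 (((d + 2).choose 2 : ℤ) - ∑ i, ((m i + 1).choose 2 : ℤ))

/-- The property holds for all `k`-tuples of points outside some hypersurface. -/
def ForGeneral {k : ℕ} (p : (Fin k → Fin 2 → ℂ) → Prop) : Prop :=
  ∃ F : MvPolynomial (Fin k × Fin 2) ℂ, F ≠ 0 ∧ ∀ P : Fin k → Fin 2 → ℂ,
    eval (fun ij : Fin k × Fin 2 => P ij.1 ij.2) F ≠ 0 → p P

/-- The reflection of the class `a = (d; w)`, `d H - ∑ w l E l`, in the class
`H - E (i 0) - E (i 1) - E (i 2)`: with `δ = d - w (i 0) - w (i 1) - w (i 2)`, the numbers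
`d`, `w (i 0)`, `w (i 1)`, `w (i 2)` are increased by `δ`. -/
def reflect {n : ℕ} (i : Fin 3 → Fin n) (a : ℤ × (Fin n → ℤ)) : ℤ × (Fin n → ℤ) :=
  (a.1 + (a.1 - a.2 (i 0) - a.2 (i 1) - a.2 (i 2)),
    fun l => a.2 l + if l = i 0 ∨ l = i 1 ∨ l = i 2 then a.1 - a.2 (i 0) - a.2 (i 1) - a.2 (i 2)
      else 0)

/-- Finitely many reflections carry `(d; w)` to `(d'; w')`. -/
def Carries {n : ℕ} (d : ℕ) (w : Fin n → ℕ) (d' : ℕ) (w' : Fin n → ℕ) : Prop :=
  Relation.ReflTransGen
    (fun a b : ℤ × (Fin n → ℤ) => ∃ i : Fin 3 → Fin n, Function.Injective i ∧ b = reflect i a)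
    ((d : ℤ), fun l => (w l : ℤ)) ((d' : ℤ), fun l => (w' l : ℤ))

/-- `(d; w)` is comparable, or carried to a standard class which is comparable, large or good. -/
def Covered (N0 : ℕ) {n : ℕ} (d : ℕ) (w : Fin n → ℕ) : Prop :=
  Comparable N0 d w ∨
    ∃ (d' : ℕ) (w' : Fin n → ℕ), Carries d w d' w' ∧ Standard d' w' ∧ Known N0 d' w'

theorem max_of {k : ℕ} {P : Fin k → Fin 2 → ℂ} {d : ℕ} {m : Fin k → ℕ}
    (h : Pool.Agent.H932R3.ExpDim ℂ m P d) : MaxConditions P d m := by
  have h1 : Module.finrank ℂ ↥(sys P d m) =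
      Nat.choose (d + 2) 2 - ∑ i, Nat.choose (m i + 1) 2 := h
  have h2 : ∑ i, ((m i + 1).choose 2 : ℤ) = ((∑ i, Nat.choose (m i + 1) 2 : ℕ) : ℤ) := by
    push_cast
    rfl
  unfold MaxConditions
  rw [h1, h2]
  omega

theorem not_max_iff {k : ℕ} {P : Fin k → Fin 2 → ℂ} {d : ℕ} {m : Fin k → ℕ} :
    ¬ MaxConditions P d m ↔ Special P d m := by
  rw [Pool.Agent.TH167.SH.special_conv]
  unfold MaxConditions Pool.Agent.TH167.SH.Special
  rw [Pool.Agent.TH167.SH.sys_eq]
  exact Iff.rfl

theorem result : ∃ N0 : ℕ, ∀ (k : ℕ) (_ : 4 ≤ k) (d : ℕ) (m : Fin k → ℕ),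
    (Covered N0 d m → ForGeneral fun P => MaxConditions P d m) ∧
    ForGeneral fun P =>
      (MinusOneSpecial P d m → ¬ MaxConditions P d m) ∧
      (¬ MaxConditions P d m → MinusOneSpecial P d m ∨
        ∃ (d'' : ℕ) (m'' : Fin k → ℕ) (l : ℕ) (G : Fin l → MvPolynomial (Fin 3) ℂ)
          (e : Fin l → ℕ) (u : Fin l → Fin k → ℕ) (N : Fin l → ℕ) (d' : ℕ) (m' : Fin k → ℕ),
          Decomp P d m d'' m'' G e u N ∧
          Relation.ReflTransGen Quadratic (d'', m'') (d', m') ∧ Standard d' m' ∧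
          ¬ MaxConditions P d' m' ∧ ¬ Known N0 d' m') := by
  obtain ⟨N0, hN0⟩ := Pool.Agent.Y939.NC.reg_exp
  refine ⟨N0, fun n hn d w => ⟨fun h => ?_, ?_⟩⟩
  · obtain ⟨F, hF, hF'⟩ := Pool.Agent.TH442.NF.to_open (d := d) (w := w)
        fun {_ _ _ P} hP => by
          rcases h with h | ⟨d', w', hc, hs, hG⟩
          · exact comparable_exp hN0 h hP
          · exact Pool.Agent.TH442.NF.up_enef hP hc (Pool.Agent.TH442.NF.enef_of_std hn P hs)
              (known_exp hN0 hn hs hG hP)
    refine ⟨F.map (algebraMap ℚ ℂ), Pool.Agent.H932R3.map_ne_zero_of hF, fun P hP => ?_⟩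
    rw [MvPolynomial.eval_map] at hP
    exact max_of (hF' (L := ℂ) P hP)
  · obtain ⟨F, hF, hF'⟩ := Pool.Agent.TH442.NF.hh_open hn (Q := fun d' w' => Known N0 d' w')
      (fun hP _ _ hr hG => known_exp hN0 hn hr hG hP) d w
    refine ⟨F, hF, fun P hP => ⟨fun h => not_max_iff.2 ((hF' P hP).1 h), fun h => ?_⟩⟩
    rcases (hF' P hP).2 (not_max_iff.1 h) with h | ⟨d'', w'', l, G, e, u, N, d', w', h1, h2, h3, h4, h5⟩
    · exact Or.inl h
    · exact Or.inr ⟨d'', w'', l, G, e, u, N, d', w', h1, h2, h3, not_max_iff.2 h4, h5⟩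

end Pool.Agent.Results.MP_1dafdd_ag.PlaneStandardForms
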